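import Pool.Agent.Helper43.CR.Defs

/-!
CR-5: perturbation of finitely many functions along disjoint translates.
-/

set_option autoImplicit false

open Set Topology Filter TopologicalSpace

namespace Pool.Agent.Helper91.CR

open Pool.Agent.Helper43.CR

/-- CR-5 with CR-3 as an explicit hypothesis. -/
theorem density_step_of
    (nonvan : ∀ (X : Type) [TopologicalSpace X] [CompactSpace X] [T2Space X] (d : ℕ)
      (_ : CovDimLE X d) (F : X → Fin (d + 1) → ℝ) (_ : Continuous F) (ε : ℝ) (_ : 0 < ε),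
      ∃ G : X → Fin (d + 1) → ℝ, Continuous G ∧ (∀ x i, |G x i - F x i| ≤ ε) ∧ ∀ x, G x ≠ 0)
    (K : Type) [MetricSpace K] [CompactSpace K] (C : Set K) (hC : IsClosed C)
    (d : ℕ) (hd : CovDimLE C d) (n : Fin (d + 1) → ℕ) (φ : Fin (d + 1) → (K ≃ₜ K))
    (hdisj : ∀ i i', i ≠ i' → n i = n i' → Disjoint (φ i '' C) (φ i' '' C))
    (f : ℕ → C(K, ℝ)) (ε : ℝ) (hε : 0 < ε) :
    ∃ g : ℕ → C(K, ℝ), (∀ m x, |g m x - f m x| ≤ ε) ∧
      ∀ x ∈ C, ∃ i, g (n i) (φ i x) ≠ 0 := by
  classical
  have : CompactSpace C := isCompact_iff_compactSpace.mp hC.isCompact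
  set δ : ℝ := ε / (d + 1) with hδ
  have hd1 : (0 : ℝ) < d + 1 := by positivity
  have hδ0 : 0 < δ := by positivity
  obtain ⟨G, hGc, hGF, hG0⟩ := nonvan C d hd (fun x i => f (n i) (φ i x))
    (by fun_prop) δ hδ0
  have hDc : ∀ i, IsClosed (φ i '' C) := fun i => (φ i).isClosedMap _ hC
  -- Tietze
  have hT : ∀ i, ∃ h : C(K, ℝ), (∀ y, |h y| ≤ δ) ∧
      ∀ x : C, h (φ i x) = G x i - f (n i) (φ i x) := by
    intro i
    have hmem : ∀ y : (φ i '' C), (φ i).symm y ∈ C := by
      rintro ⟨y, x, hx, rfl⟩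
      simpa using hx
    let q : C((φ i '' C : Set K), ℝ) :=
      ⟨fun y => G ⟨(φ i).symm y, hmem y⟩ i - f (n i) y, by
        refine Continuous.sub ?_ ((f (n i)).continuous.comp continuous_subtype_val)
        have h1 : Continuous fun y : (φ i '' C : Set K) => (⟨(φ i).symm y, hmem y⟩ : C) :=
          Continuous.subtype_mk ((φ i).symm.continuous.comp continuous_subtype_val) _
        exact (continuous_apply i).comp (hGc.comp h1)⟩
    have hq : ∀ y, q y ∈ Icc (-δ) δ := by
      intro y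
      have h1 := hGF ⟨(φ i).symm y, hmem y⟩ i
      have h2 : (φ i) ((φ i).symm (y : K)) = y := (φ i).apply_symm_apply _
      simp only [h2] at h1
      exact abs_le.mp h1
    obtain ⟨h, hh, hr⟩ := ContinuousMap.exists_restrict_eq_forall_mem_of_closed (t := Icc (-δ) δ) q
      hq ⟨0, by constructor <;> linarith⟩ (hDc i)
    refine ⟨h, fun y => abs_le.mpr (hh y), fun x => ?_⟩
    have h3 : h.restrict (φ i '' C) ⟨φ i x, mem_image_of_mem _ x.2⟩ =
        q ⟨φ i x, mem_image_of_mem _ x.2⟩ := by rw [hr]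
    have h4 : (φ i).symm (φ i (x : K)) = x := (φ i).symm_apply_apply _
    have h5 : h (φ i x) = q ⟨φ i x, mem_image_of_mem _ x.2⟩ := h3
    rw [h5]
    have h6 : (⟨(φ i).symm (φ i x), hmem ⟨φ i x, mem_image_of_mem _ x.2⟩⟩ : C) = x :=
      Subtype.ext h4
    change G ⟨(φ i).symm (φ i x), hmem ⟨φ i x, mem_image_of_mem _ x.2⟩⟩ i -
      f (n i) (φ i x) = _
    rw [h6]
  -- Urysohn
  have hU : ∀ i, ∃ χ : C(K, ℝ), (∀ y, χ y ∈ Icc (0 : ℝ) 1) ∧ (∀ x ∈ C, χ (φ i x) = 1) ∧
      ∀ i', i ≠ i' → n i = n i' → ∀ x ∈ C, χ (φ i' x) = 0 := by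
    intro i
    obtain ⟨χ, h0, h1, h2⟩ := exists_continuous_zero_one_of_isClosed
      (s := ⋃ i' : {i' : Fin (d + 1) // i ≠ i' ∧ n i = n i'}, φ i' '' C) (t := φ i '' C)
      (isClosed_iUnion_of_finite fun i' => hDc i') (hDc i)
      (by
        rw [disjoint_iUnion_left]
        rintro ⟨i', hi', hn⟩
        exact (hdisj i i' hi' hn).symm)
    refine ⟨χ, h2, fun x hx => h1 (mem_image_of_mem _ hx), fun i' hi' hn x hx => ?_⟩
    exact h0 (mem_iUnion.mpr ⟨⟨i', hi', hn⟩, mem_image_of_mem _ hx⟩)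
  choose h hh1 hh2 using hT
  choose χ hχ1 hχ2 hχ3 using hU
  refine ⟨fun m => f m + ∑ i, if n i = m then χ i * h i else 0, ?_, ?_⟩
  · intro m x
    have h1 : (f m + ∑ i, if n i = m then χ i * h i else 0) x - f m x =
        ∑ i, if n i = m then χ i x * h i x else 0 := by
      simp only [ContinuousMap.add_apply, ContinuousMap.sum_apply, add_sub_cancel_left]
      refine Finset.sum_congr rfl fun i _ => ?_
      split_ifs <;> simp
    rw [h1]
    calc |∑ i, if n i = m then χ i x * h i x else 0|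
        ≤ ∑ i, |if n i = m then χ i x * h i x else 0| := Finset.abs_sum_le_sum_abs _ _
      _ ≤ ∑ _i : Fin (d + 1), δ := by
          refine Finset.sum_le_sum fun i _ => ?_
          split_ifs
          · rw [abs_mul]
            have h2 : |χ i x| ≤ 1 := abs_le.mpr ⟨by linarith [(hχ1 i x).1], (hχ1 i x).2⟩
            calc |χ i x| * |h i x| ≤ 1 * δ :=
                  mul_le_mul h2 (hh1 i x) (abs_nonneg _) zero_le_one
              _ = δ := one_mul _
          · simpa using hδ0.le
      _ = ε := by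
          rw [Finset.sum_const, Finset.card_univ, Fintype.card_fin, nsmul_eq_mul, hδ]
          push_cast
          field_simp
  · intro x hx
    obtain ⟨i, hi⟩ : ∃ i, G ⟨x, hx⟩ i ≠ 0 := by
      by_contra hcon
      push Not at hcon
      exact hG0 ⟨x, hx⟩ (funext hcon)
    refine ⟨i, ?_⟩
    have h1 : (f (n i) + ∑ i', if n i' = n i then χ i' * h i' else 0) (φ i x) =
        f (n i) (φ i x) + ∑ i', if n i' = n i then χ i' (φ i x) * h i' (φ i x) else 0 := by
      simp only [ContinuousMap.add_apply, ContinuousMap.sum_apply]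
      congr 1
      refine Finset.sum_congr rfl fun i' _ => ?_
      split_ifs <;> simp
    have h2 : (∑ i', if n i' = n i then χ i' (φ i x) * h i' (φ i x) else 0) =
        χ i (φ i x) * h i (φ i x) := by
      rw [Finset.sum_eq_single i]
      · simp
      · intro i' _ hne
        split_ifs with hn
        · rw [hχ3 i' i hne hn x hx, zero_mul]
        · rfl
      · intro hni
        exact absurd (Finset.mem_univ _) hni
    have h3 := hh2 i ⟨x, hx⟩
    change h i (φ i x) = G ⟨x, hx⟩ i - f (n i) (φ i x) at h3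
    rw [h1, h2, hχ2 i x hx, h3]
    simpa using hi

end Pool.Agent.Helper91.CR
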