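import Pool.Agent.Helper43.CR.St.Stubs
import Pool.Agent.Helper91.CR.P5

/-!
CR-5 in the form of the stub (uses CR-3 from the stubs file).
-/

set_option autoImplicit false

open Set Topology Filter TopologicalSpace

namespace Pool.Agent.Helper91.CR

open Pool.Agent.Helper43.CR

/-- Perturbation of finitely many functions along disjoint translates. -/
theorem density_step (K : Type) [MetricSpace K] [CompactSpace K] (C : Set K) (hC : IsClosed C)
    (d : ℕ) (hd : CovDimLE C d) (n : Fin (d + 1) → ℕ) (φ : Fin (d + 1) → (K ≃ₜ K))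
    (hdisj : ∀ i i', i ≠ i' → n i = n i' → Disjoint (φ i '' C) (φ i' '' C))
    (f : ℕ → C(K, ℝ)) (ε : ℝ) (hε : 0 < ε) :
    ∃ g : ℕ → C(K, ℝ), (∀ m x, |g m x - f m x| ≤ ε) ∧
      ∀ x ∈ C, ∃ i, g (n i) (φ i x) ≠ 0 :=
  density_step_of (fun X _ _ _ d hd F hF ε hε => exists_nonvanishing X d hd F hF ε hε)
    K C hC d hd n φ hdisj f ε hε

end Pool.Agent.Helper91.CR
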